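import Pool.Agent.Y745.BM.Tail
import Pool.Agent.Y745.SW.Final
import Pool.Agent.TH803.CL.NearS

set_option autoImplicit false

/-! Beyond the Montgomery-Taylor proportion for isolated zeros with a derivative of normal size. -/

namespace Pool.Agent.Y745.BM

open Filter Topology MeasureTheory Complex H370 Pool.Agent.Y745.SW

noncomputable section

lemma log_sq_small (K ε : ℝ) (hε : 0 < ε) : ∀ᶠ T : ℝ in atTop, K * Real.log T ^ 2 ≤ ε * (T * Real.log T) := by
  have h1 := (isLittleO_log_rpow_atTop (show (0:ℝ) < 1 by norm_num)).def (c := ε / (|K| + 1)) (by positivity)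
  filter_upwards [h1, eventually_ge_atTop 1, Real.tendsto_log_atTop.eventually_ge_atTop 1] with T h2 hT hL
  rw [Real.rpow_one, Real.norm_eq_abs, Real.norm_eq_abs, abs_of_pos (by linarith : 0 < T),
    abs_of_nonneg (by linarith)] at h2
  have h3 : K * Real.log T ≤ ε * T := by
    calc K * Real.log T ≤ (|K| + 1) * Real.log T := by
          refine mul_le_mul_of_nonneg_right ?_ (by linarith)
          linarith [le_abs_self K]
      _ ≤ (|K| + 1) * (ε / (|K| + 1) * T) := mul_le_mul_of_nonneg_left h2 (by positivity)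
      _ = ε * T := by field_simp
  calc K * Real.log T ^ 2 = (K * Real.log T) * Real.log T := by ring
    _ ≤ (ε * T) * Real.log T := mul_le_mul_of_nonneg_right h3 (by linarith)
    _ = _ := by ring

open Classical in
theorem beyond : ∃ κ δ C : ℝ, 0 < κ ∧ 0 < δ ∧ δ ≤ 1 / 30 ∧ 0 < C ∧ ∀ᶠ T : ℝ in atTop,
    (2 - cMTinv + κ) * (NN riemannZeta T (2 * T) : ℝ) ≤
      (((TH803CL.isoA riemannZeta T (2 * T) (δ / Real.log T)).filter (fun s =>
        |Real.log ‖deriv riemannZeta s‖ - Real.log (Real.log T)| ≤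
          C * Real.sqrt (Real.log (Real.log T)))).card : ℝ) := by
  obtain ⟨κ, h0, hκ, hh0, hh1, hmain⟩ := TH803CL.isoS_main
  have hpi := Real.pi_pos
  obtain ⟨δ, hδ, hδ30, hδκ⟩ : ∃ δ : ℝ, 0 < δ ∧ δ ≤ 1 / 30 ∧ 74 * δ ^ 2 ≤ κ / 4 := by
    refine ⟨min (1 / 30) (κ / 296), by positivity, min_le_left _ _, ?_⟩
    have h1 : min (1 / 30) (κ / 296) ≤ 1 / 30 := min_le_left _ _
    have h2 : min (1 / 30) (κ / 296) ≤ κ / 296 := min_le_right _ _
    have h3 : 0 ≤ min (1 / 30) (κ / 296) := by positivity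
    have h4 : min (1 / 30) (κ / 296) ^ 2 ≤ (κ / 296) * (1 / 30) := by
      rw [sq]
      exact mul_le_mul h2 h1 h3 (by positivity)
    linarith
  obtain ⟨T1, hT1, hcount⟩ := hmain riemannZeta good_zeta δ hδ hδ30
  obtain ⟨C1, T2, hC1, hT2, hnn⟩ := nn_asymp good_zeta
  set ε : ℝ := min 1 (κ / 96) with hε
  have hε0 : 0 < ε := by positivity
  have hε1 : ε ≤ 1 := min_le_left _ _
  have hεκ : ε ≤ κ / 96 := min_le_right _ _
  obtain ⟨K, hK, htail⟩ := iso_tail a_FM Pool.Agent.Y895.SW.t_BV δ ε hδ (by linarith) hε0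
  have hder := a_DER δ ε hδ (by linarith) hε0
  have hLL : Tendsto (fun T : ℝ => Real.log (Real.log T)) atTop atTop :=
    Real.tendsto_log_atTop.comp Real.tendsto_log_atTop
  refine ⟨κ / 4, δ, K + 1, by positivity, hδ, hδ30, by positivity, ?_⟩
  filter_upwards [htail, hder, log_sq_small (2 * (4 / δ + 1)) ε hε0, eventually_ge_atTop T1, eventually_ge_atTop T2,
    hLL.eventually_ge_atTop 1, Real.tendsto_log_atTop.eventually_ge_atTop (8 * Real.pi * C1 + 1),
    eventually_ge_atTop 10] with T ht hd hsm hTT1 hTT2 hLL1 hLC hT10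
  have hT0 : 0 < T := by linarith
  set L := Real.log T with hL
  have hL1 : 1 ≤ L := by
    have : 0 < 8 * Real.pi * C1 := by positivity
    linarith
  have hL0 : 0 < L := by linarith
  set l := Real.log L with hl
  have hl0 : 0 < l := by linarith
  have hc1 := hcount T hTT1 T (by
    calc T ^ h0 ≤ T ^ (1:ℝ) := Real.rpow_le_rpow_of_exponent_le (by linarith) hh1.le
      _ = T := Real.rpow_one T) le_rfl
  rw [show T + T = 2 * T by ring] at hc1
  have hcc : H295SI.cc 1 = cMTinv := by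
    unfold H295SI.cc cMTinv
    ring
  rw [hcc] at hc1
  have hn := abs_le.1 (hnn T hTT2 T (2 * T) le_rfl (by linarith) (by linarith) le_rfl)
  have ht1 := ht T (2 * T)
  have hd1 := hd T (2 * T) le_rfl (by linarith) (by linarith) le_rfl
  set A := TH803CL.isoA riemannZeta T (2 * T) (δ / L) with hA
  set IS := isoS T (2 * T) (δ / L) with hIS
  have hAI : A ⊆ IS := by
    intro s hs
    rw [hA] at hs
    unfold TH803CL.isoA at hs
    rw [Finset.mem_filter] at hs
    rw [hIS]
    unfold isoS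
    rw [Finset.mem_filter]
    refine ⟨hs.1, hs.2.1, hs.2.2.1, fun s' hs' hne => ?_⟩
    have h1 := (mem_Zf good_zeta (by linarith : 1 ≤ T)).mp hs'
    exact hs.2.2.2 s' h1.2.2.2.2 h1.1 h1.2.1 hne
  set G := A.filter (fun s => |Real.log ‖deriv riemannZeta s‖ - l| ≤ (K + 1) * Real.sqrt l) with hG
  set D := IS.filter (fun s => T + 2 ≤ s.im ∧ s.im ≤ 2 * T - 2 ∧
    ε * Real.sqrt l < |Real.log ‖deriv riemannZeta s‖ - l - (Px T s.im).re|) with hD
  set P := IS.filter (fun s => T + L + 1 ≤ s.im ∧ s.im ≤ 2 * T - L - 1 ∧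
    K * Real.sqrt l < |(Px T s.im).re|) with hP
  set E1 := IS.filter (fun s => |s.im - T| ≤ L + 1) with hE1
  set E2 := IS.filter (fun s => |s.im - 2 * T| ≤ L + 1) with hE2
  have hre : ∀ s ∈ IS, s.re = 1 / 2 := by
    intro s hs
    rw [hIS] at hs
    unfold isoS at hs
    rw [Finset.mem_filter] at hs
    exact hs.2.1
  have hsep : ∀ s ∈ IS, ∀ s' ∈ IS, s' ≠ s → δ / L ≤ ‖s - s'‖ := by
    intro s hs s' hs' hne
    rw [hIS] at hs hs'
    unfold isoS at hs hs'
    rw [Finset.mem_filter] at hs hs'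
    exact hs.2.2.2 s' hs'.1 hne
  have hedge : ∀ t : ℝ, (((IS.filter (fun s => |s.im - t| ≤ L + 1)).card : ℕ) : ℝ) ≤ (4 / δ + 1) * L ^ 2 := by
    intro t
    have h1 := Pool.Agent.Y288.EW.t_SEPC IS (δ / L) (L + 1) t (by positivity) (by linarith) hre hsep
    have h2 : 2 * (L + 1) / (δ / L) + 1 ≤ (4 / δ + 1) * L ^ 2 := by
      have e1 : 2 * (L + 1) / (δ / L) = (2 / δ) * ((L + 1) * L) := by field_simp
      rw [e1]
      have h3 : (L + 1) * L ≤ 2 * L ^ 2 := by nlinarith
      have h4 : (2 / δ) * ((L + 1) * L) ≤ (2 / δ) * (2 * L ^ 2) := mul_le_mul_of_nonneg_left h3 (by positivity)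
      have h5 : 1 ≤ L ^ 2 := one_le_pow₀ hL1
      have e2 : (4 / δ + 1) * L ^ 2 = (2 / δ) * (2 * L ^ 2) + L ^ 2 := by ring
      rw [e2]
      linarith
    refine le_trans ?_ h2
    convert h1 using 2
  have hcov : A ⊆ G ∪ (D ∪ (P ∪ (E1 ∪ E2))) := by
    intro s hs
    have hsI := hAI hs
    have hsZ : s ∈ Zf riemannZeta T (2 * T) := by
      rw [hA] at hs
      unfold TH803CL.isoA at hs
      exact (Finset.mem_filter.1 hs).1
    have hz := (mem_Zf good_zeta (by linarith : 1 ≤ T)).mp hsZ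
    simp only [Finset.mem_union]
    by_cases a1 : s.im ≤ T + L + 1
    · refine Or.inr (Or.inr (Or.inr (Or.inl ?_)))
      rw [hE1, Finset.mem_filter]
      refine ⟨hsI, ?_⟩
      rw [abs_le]
      constructor <;> linarith [hz.2.2.1]
    by_cases a2 : 2 * T - L - 1 ≤ s.im
    · refine Or.inr (Or.inr (Or.inr (Or.inr ?_)))
      rw [hE2, Finset.mem_filter]
      refine ⟨hsI, ?_⟩
      rw [abs_le]
      constructor <;> linarith [hz.2.2.2.1]
    push Not at a1 a2
    by_cases a3 : K * Real.sqrt l < |(Px T s.im).re|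
    · refine Or.inr (Or.inr (Or.inl ?_))
      rw [hP, Finset.mem_filter]
      exact ⟨hsI, a1.le, a2.le, a3⟩
    by_cases a4 : ε * Real.sqrt l < |Real.log ‖deriv riemannZeta s‖ - l - (Px T s.im).re|
    · refine Or.inr (Or.inl ?_)
      rw [hD, Finset.mem_filter]
      exact ⟨hsI, by linarith, by linarith, a4⟩
    push Not at a3 a4
    refine Or.inl ?_
    rw [hG, Finset.mem_filter]
    refine ⟨hs, ?_⟩
    have hs0 := Real.sqrt_nonneg l
    have h1 : ε * Real.sqrt l ≤ 1 * Real.sqrt l := mul_le_mul_of_nonneg_right hε1 hs0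
    have h2 := abs_le.1 a3
    have h3 := abs_le.1 a4
    rw [abs_le]
    constructor
    · linarith [h2.1, h3.1]
    · linarith [h2.2, h3.2]
  have hcard : (A.card : ℝ) ≤ (G.card : ℝ) + ((D.card : ℝ) + ((P.card : ℝ) + ((E1.card : ℝ) + (E2.card : ℝ)))) := by
    have h1 := Finset.card_le_card hcov
    have h2 := Finset.card_union_le G (D ∪ (P ∪ (E1 ∪ E2)))
    have h3 := Finset.card_union_le D (P ∪ (E1 ∪ E2))
    have h4 := Finset.card_union_le P (E1 ∪ E2)
    have h5 := Finset.card_union_le E1 E2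
    have h6 : A.card ≤ G.card + (D.card + (P.card + (E1.card + E2.card))) := by omega
    exact_mod_cast h6
  have he1 := hedge T
  have he2 := hedge (2 * T)
  have hTL : T * L ≤ 16 * (NN riemannZeta T (2 * T) : ℝ) := by
    have h1 : C1 * T ≤ T * L / (8 * Real.pi) := by
      rw [le_div_iff₀ (by positivity)]
      have : T * (8 * Real.pi * C1) ≤ T * L := mul_le_mul_of_nonneg_left (by linarith) hT0.le
      linarith
    have h2 : T * L / (2 * Real.pi) = 4 * (T * L / (8 * Real.pi)) := by field_simp; norm_num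
    have h4 : 3 * (T * L / (8 * Real.pi)) ≤ (NN riemannZeta T (2 * T) : ℝ) := by
      have := hn.1
      rw [h2] at this
      linarith
    have h5 : T * L / 16 ≤ 3 * (T * L / (8 * Real.pi)) := by
      have e1 : 3 * (T * L / (8 * Real.pi)) = (T * L * 3) / (8 * Real.pi) := by ring
      rw [e1, div_le_div_iff₀ (by norm_num) (by positivity)]
      have h6 : 0 ≤ T * L := by positivity
      have h7 : T * L * (8 * Real.pi) ≤ T * L * (8 * 4) :=
        mul_le_mul_of_nonneg_left (by linarith [Real.pi_lt_four]) h6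
      linarith
    linarith
  have hN0 : 0 ≤ (NN riemannZeta T (2 * T) : ℝ) := Nat.cast_nonneg _
  have herr : 3 * (ε * (T * L)) ≤ κ / 2 * (NN riemannZeta T (2 * T) : ℝ) := by
    have h1 : ε * (T * L) ≤ κ / 96 * (16 * (NN riemannZeta T (2 * T) : ℝ)) :=
      mul_le_mul hεκ hTL (by positivity) (by positivity)
    linarith
  have hκN : (2 - cMTinv + κ - κ / 4) * (NN riemannZeta T (2 * T) : ℝ) ≤
      (2 - cMTinv + κ - 74 * δ ^ 2) * (NN riemannZeta T (2 * T) : ℝ) :=
    mul_le_mul_of_nonneg_right (by linarith) hN0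
  have e3 : (2 - cMTinv + κ - κ / 4) * (NN riemannZeta T (2 * T) : ℝ) =
      (2 - cMTinv + κ / 4) * (NN riemannZeta T (2 * T) : ℝ) + κ / 2 * (NN riemannZeta T (2 * T) : ℝ) := by ring
  linarith

end

end Pool.Agent.Y745.BM
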