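import Pool.Agent.Y745.SW.DefsB
import Pool.Agent.Y288.EW.SEPC

set_option autoImplicit false

/-! The sum over the small primes at almost all isolated zeros. -/

namespace Pool.Agent.Y745.BM

open Filter Topology MeasureTheory Complex H370 Pool.Agent.Y745.SW

noncomputable section

/-- separated points whose neighbourhoods lie in a set of small measure -/
lemma disj_count {S : Finset ℂ} {d : ℝ} (hd : 0 < d) (hre : ∀ s ∈ S, s.re = 1 / 2)
    (hsep : ∀ s ∈ S, ∀ s' ∈ S, s' ≠ s → d ≤ ‖s - s'‖) {X : Set ℝ} (hX : volume X ≠ ⊤)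
    (hsub : ∀ s ∈ S, Set.Ico (s.im - d / 2) (s.im + d / 2) ⊆ X) : (S.card : ℝ) * d ≤ volume.real X := by
  have hdis : (S : Set ℂ).PairwiseDisjoint (fun s => Set.Ico (s.im - d / 2) (s.im + d / 2)) := by
    intro s hs s' hs' hne
    have h1 := hsep s hs s' hs' hne.symm
    have h2 : s - s' = ((s.im - s'.im : ℝ) : ℂ) * I := by
      apply Complex.ext
      · simp [hre s hs, hre s' hs']
      · simp
    rw [h2, norm_mul, Complex.norm_I, mul_one, Complex.norm_real, Real.norm_eq_abs] at h1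
    refine Set.disjoint_left.2 fun x hx hx' => ?_
    have h3 : |s.im - s'.im| < d := by
      rw [abs_lt]
      constructor
      · linarith [hx.1, hx.2, hx'.1, hx'.2]
      · linarith [hx.1, hx.2, hx'.1, hx'.2]
    linarith
  have h1 : volume (⋃ s ∈ S, Set.Ico (s.im - d / 2) (s.im + d / 2)) =
      ∑ s ∈ S, volume (Set.Ico (s.im - d / 2) (s.im + d / 2)) :=
    measure_biUnion_finset hdis fun s _ => measurableSet_Ico
  have h2 : ∀ s ∈ S, volume (Set.Ico (s.im - d / 2) (s.im + d / 2)) = ENNReal.ofReal d := by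
    intro s _
    rw [Real.volume_Ico]
    congr 1; ring
  rw [Finset.sum_congr rfl h2, Finset.sum_const, nsmul_eq_mul] at h1
  have h3 : volume (⋃ s ∈ S, Set.Ico (s.im - d / 2) (s.im + d / 2)) ≤ volume X :=
    measure_mono (Set.iUnion₂_subset hsub)
  rw [h1] at h3
  have h4 := ENNReal.toReal_mono hX h3
  rw [ENNReal.toReal_mul, ENNReal.toReal_natCast, ENNReal.toReal_ofReal hd.le] at h4
  exact h4

lemma Px_continuous (T : ℝ) : Continuous (fun t => Px T t) := by
  unfold Px Py
  refine continuous_finsetSum _ fun p hp => ?_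
  have hp0 : (p : ℂ) ≠ 0 := by
    have := (Finset.mem_filter.1 hp).2.pos
    exact_mod_cast this.ne'
  refine Continuous.const_cpow (by fun_prop) (Or.inl hp0)

/-- the mean square of the sum over the small primes -/
lemma Px_ms (hFM : P_FM) : ∀ᶠ T : ℝ in atTop,
    ∫ t in (T + Real.log T)..(2 * T - Real.log T), ‖Px T t‖ ^ 2 ≤ 2 * (T * Real.log (Real.log T)) := by
  have h1 := hFM 1 1
  rw [if_pos rfl] at h1
  have h2 := h1.norm
  have h3 : ‖((Nat.factorial 1 : ℕ) : ℂ)‖ < 2 := by simp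
  have hLL : Tendsto (fun T : ℝ => Real.log (Real.log T)) atTop atTop :=
    Real.tendsto_log_atTop.comp Real.tendsto_log_atTop
  filter_upwards [h2.eventually (eventually_lt_nhds h3), eventually_ge_atTop 1, hLL.eventually_ge_atTop 1]
    with T hT hT1 hL
  have hT0 : 0 < T := by linarith
  have hL0 : 0 < Real.log (Real.log T) := by linarith
  have e1 : ∀ t : ℝ, Px T t ^ 1 * (starRingEnd ℂ) (Px T t) ^ 1 = ((‖Px T t‖ ^ 2 : ℝ) : ℂ) := by
    intro t
    rw [pow_one, pow_one, Complex.mul_conj, Complex.normSq_eq_norm_sq]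
  simp_rw [e1] at hT
  rw [intervalIntegral.integral_ofReal, norm_mul, Complex.norm_real, Complex.norm_real, Real.norm_eq_abs,
    Real.norm_eq_abs] at hT
  have e2 : (((1 : ℕ) : ℝ) + ((1 : ℕ) : ℝ)) / 2 = 1 := by norm_num
  rw [e2, Real.rpow_one] at hT
  set J := ∫ t in (T + Real.log T)..(2 * T - Real.log T), ‖Px T t‖ ^ 2 with hJ
  rw [abs_of_nonneg (show 0 ≤ 1 / T * (1 / Real.log (Real.log T)) by positivity)] at hT
  have h4 : 1 / T * (1 / Real.log (Real.log T)) * |J| = |J| / (T * Real.log (Real.log T)) := by field_simp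
  rw [h4, div_lt_iff₀ (by positivity)] at hT
  exact (le_abs_self J).trans hT.le

open Classical in
/-- almost all isolated zeros have a sum over the small primes of normal size -/
theorem iso_tail (hFM : P_FM) (hBV : P_BV) (δ ε : ℝ) (hδ : 0 < δ) (hδ1 : δ ≤ 1) (hε : 0 < ε) :
    ∃ K : ℝ, 0 < K ∧ ∀ᶠ T : ℝ in atTop, ∀ U1 U2 : ℝ,
      (((isoS U1 U2 (δ / Real.log T)).filter (fun s => T + Real.log T + 1 ≤ s.im ∧
        s.im ≤ 2 * T - Real.log T - 1 ∧ K * Real.sqrt (Real.log (Real.log T)) < |(Px T s.im).re|)).card : ℝ) ≤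
        ε * (T * Real.log T) := by
  set K : ℝ := Real.sqrt (16 / (ε * δ)) + 2 with hK
  have hs0 : 0 ≤ Real.sqrt (16 / (ε * δ)) := Real.sqrt_nonneg _
  have hK2 : 2 ≤ K := by rw [hK]; linarith
  have hK0 : 0 < K := by linarith
  have hKK : 16 / (ε * δ) ≤ K ^ 2 := by
    calc 16 / (ε * δ) = Real.sqrt (16 / (ε * δ)) ^ 2 := (Real.sq_sqrt (by positivity)).symm
      _ ≤ K ^ 2 := pow_le_pow_left₀ hs0 (by rw [hK]; linarith) 2
  refine ⟨K, hK0, ?_⟩
  have hLL : Tendsto (fun T : ℝ => Real.log (Real.log T)) atTop atTop :=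
    Real.tendsto_log_atTop.comp Real.tendsto_log_atTop
  filter_upwards [Px_ms hFM, hBV 1 (ε * δ / 2) one_pos (by positivity), hLL.eventually_ge_atTop 1,
    Real.tendsto_log_atTop.eventually_ge_atTop 1, eventually_ge_atTop 1] with T hms hbv hLL1 hL1 hT1
  intro U1 U2
  obtain ⟨Bd, hBdm, hBds, hBdv, hBd⟩ := hbv
  set L := Real.log T with hL
  have hL0 : 0 < L := by linarith
  have hT0 : 0 < T := by linarith
  set l := Real.log L with hl
  have hl0 : 0 < l := by linarith
  have hsq1 : 1 ≤ Real.sqrt l := by rw [Real.one_le_sqrt]; exact hLL1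
  have hPc := Px_continuous T
  set S := (isoS U1 U2 (δ / L)).filter (fun s => T + L + 1 ≤ s.im ∧ s.im ≤ 2 * T - L - 1 ∧
    K * Real.sqrt l < |(Px T s.im).re|) with hS
  by_cases hSe : S.Nonempty
  swap
  · rw [Finset.not_nonempty_iff_eq_empty] at hSe
    rw [hSe, Finset.card_empty, Nat.cast_zero]
    positivity
  have hTL : T + L ≤ 2 * T - L := by
    obtain ⟨s, hs⟩ := hSe
    rw [hS, Finset.mem_filter] at hs
    linarith [hs.2.1, hs.2.2.1]
  set Y : Set ℝ := {t : ℝ | t ∈ Set.Icc (T + L) (2 * T - L) ∧ (K / 2) ^ 2 * l ≤ ‖Px T t‖ ^ 2} with hY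
  have hYm : MeasurableSet Y := by
    refine measurableSet_Icc.inter ?_
    exact (isClosed_le continuous_const (hPc.norm.pow 2)).measurableSet
  have hYs : Y ⊆ Set.Icc (T + L) (2 * T - L) := fun t ht => ht.1
  have hYf : volume Y ≠ ⊤ := ne_top_of_le_ne_top (by simp) (measure_mono hYs)
  have hYv : volume.real Y ≤ 8 / K ^ 2 * T := by
    have i1 : IntegrableOn (fun t => ‖Px T t‖ ^ 2) (Set.Icc (T + L) (2 * T - L)) :=
      ((hPc.norm.pow 2).continuousOn).integrableOn_compact isCompact_Icc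
    have h1 : ∫ _t in Y, (K / 2) ^ 2 * l ≤ ∫ t in Y, ‖Px T t‖ ^ 2 :=
      setIntegral_mono_on (integrableOn_const hYf) (i1.mono_set hYs) hYm fun t ht => ht.2
    have h2 : ∫ t in Y, ‖Px T t‖ ^ 2 ≤ ∫ t in Set.Icc (T + L) (2 * T - L), ‖Px T t‖ ^ 2 :=
      setIntegral_mono_set i1 (Filter.Eventually.of_forall fun t => sq_nonneg _)
        (Filter.Eventually.of_forall hYs)
    rw [integral_Icc_eq_integral_Ioc, ← intervalIntegral.integral_of_le hTL] at h2
    rw [setIntegral_const, smul_eq_mul] at h1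
    have h3 : volume.real Y * ((K / 2) ^ 2 * l) ≤ 2 * (T * l) := h1.trans (h2.trans hms)
    have h4 : volume.real Y * (K ^ 2 / 4) * l ≤ 2 * T * l := by
      calc volume.real Y * (K ^ 2 / 4) * l = volume.real Y * ((K / 2) ^ 2 * l) := by ring
        _ ≤ 2 * (T * l) := h3
        _ = _ := by ring
    have h5 : volume.real Y * (K ^ 2 / 4) ≤ 2 * T := le_of_mul_le_mul_right h4 hl0
    rw [div_mul_eq_mul_div, le_div_iff₀ (by positivity)]
    linarith
  have hBf : volume Bd ≠ ⊤ := ne_top_of_le_ne_top (by simp) (measure_mono hBds)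
  have hcount := disj_count (S := S) (d := δ / L) (by positivity) (by
      intro s hs
      rw [hS, Finset.mem_filter] at hs
      have h1 := hs.1
      unfold isoS at h1
      rw [Finset.mem_filter] at h1
      exact h1.2.1) (by
      intro s hs s' hs' hne
      rw [hS, Finset.mem_filter] at hs hs'
      have h1 := hs.1
      have h2 := hs'.1
      unfold isoS at h1 h2
      rw [Finset.mem_filter] at h1 h2
      exact h1.2.2.2 s' h2.1 hne) (X := Bd ∪ Y) (measure_union_ne_top hBf hYf) (by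
      intro s hs t ht
      rw [hS, Finset.mem_filter] at hs
      obtain ⟨-, hs1, hs2, hs3⟩ := hs
      have hd1 : δ / L / 2 ≤ 1 / L := by
        rw [div_div, div_le_div_iff₀ (by positivity) hL0]
        nlinarith
      have hd2 : 1 / L ≤ 1 := by rw [div_le_one hL0]; exact hL1
      have ht1 : T + L ≤ t := by linarith [ht.1]
      have ht2 : t ≤ 2 * T - L := by linarith [ht.2]
      by_cases htB : t ∈ Bd
      · exact Or.inl htB
      · refine Or.inr ⟨⟨ht1, ht2⟩, ?_⟩
        have h1 := hBd t ⟨by linarith, by linarith⟩ htB (s.im - t) (by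
          rw [abs_le]
          constructor <;> linarith [ht.1, ht.2])
        rw [show t + (s.im - t) = s.im by ring] at h1
        have h2 : |(Px T s.im).re| ≤ ‖Px T t‖ + 1 := by
          refine (Complex.abs_re_le_norm _).trans ?_
          calc ‖Px T s.im‖ = ‖Px T t + (Px T s.im - Px T t)‖ := by congr 1; ring
            _ ≤ ‖Px T t‖ + ‖Px T s.im - Px T t‖ := norm_add_le _ _
            _ ≤ _ := by linarith
        have h3 : K / 2 * Real.sqrt l ≤ ‖Px T t‖ := by
          have : 1 ≤ K / 2 * Real.sqrt l := by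
            have h4 : 1 * 1 ≤ K / 2 * Real.sqrt l := mul_le_mul (by linarith) hsq1 (by norm_num) (by linarith)
            linarith
          linarith
        calc (K / 2) ^ 2 * l = (K / 2 * Real.sqrt l) ^ 2 := by rw [mul_pow, Real.sq_sqrt hl0.le]
          _ ≤ ‖Px T t‖ ^ 2 := pow_le_pow_left₀ (by positivity) h3 2)
  have hX : volume.real (Bd ∪ Y) ≤ ε * δ / 2 * T + 8 / K ^ 2 * T :=
    (measureReal_union_le _ _).trans (add_le_add hBdv hYv)
  have h8 : 8 / K ^ 2 ≤ ε * δ / 2 := by
    rw [div_le_iff₀ (by positivity)]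
    rw [div_le_iff₀ (by positivity)] at hKK
    linarith
  have h9 : (S.card : ℝ) * (δ / L) ≤ ε * δ * T := by
    have : 8 / K ^ 2 * T ≤ ε * δ / 2 * T := mul_le_mul_of_nonneg_right h8 hT0.le
    linarith
  rw [mul_div_assoc', div_le_iff₀ hL0] at h9
  have h10 : δ * (S.card : ℝ) ≤ δ * (ε * (T * L)) := by linarith
  exact le_of_mul_le_mul_left h10 hδ

end

end Pool.Agent.Y745.BM
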